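import Pool.Agent.Lib.Helper95.Borsuk.Dense
import Pool.Agent.Lib.H72V.G2

/-!
# The Borsuk graph on `S^d` with small parameter has chromatic number `d + 2`

The lower bound is the classical argument from the Borsuk-Ulam theorem (`H72V.borsuk_ulam`, proved
in this repository from Tucker's lemma); the upper bound is an explicit colouring by coordinates.
-/

open Set Metric

noncomputable section

namespace BorsukLib

variable {d : ℕ}

/-- a nowhere zero map `ℝ^d → ℝ^{d+1}`, odd on the boundary of the cross-polytope -/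
private def hemiVec (d : ℕ) (y : Fin d → ℝ) : E d :=
  WithLp.toLp 2 (Fin.snoc (α := fun _ => ℝ) y (max (1 - ∑ i, |y i|) 0))

private theorem hemiVec_castSucc (y : Fin d → ℝ) (i : Fin d) : hemiVec d y i.castSucc = y i := by
  simp [hemiVec]

private theorem hemiVec_last (y : Fin d → ℝ) :
    hemiVec d y (Fin.last d) = max (1 - ∑ i, |y i|) 0 := by
  simp [hemiVec]

private theorem hemiVec_ne (y : Fin d → ℝ) : hemiVec d y ≠ 0 := by
  intro h
  have h1 : ∀ i, y i = 0 := fun i => by
    rw [← hemiVec_castSucc y i, h]; rfl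
  have h2 := hemiVec_last y
  rw [h] at h2
  simp [h1] at h2

private theorem hemiVec_continuous : Continuous (hemiVec d) := by
  refine (PiLp.continuous_toLp 2 _).comp ?_
  refine continuous_pi (fun j => ?_)
  refine Fin.lastCases ?_ (fun i => ?_) j
  · simp only [Fin.snoc_last]
    fun_prop
  · simp only [Fin.snoc_castSucc]
    fun_prop

private theorem hemiVec_odd (y : Fin d → ℝ) (hy : ∑ i, |y i| = 1) :
    hemiVec d (-y) = -hemiVec d y := by
  ext j
  refine Fin.lastCases ?_ (fun i => ?_) j
  · rw [hemiVec_last]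
    show _ = - (hemiVec d y (Fin.last d))
    rw [hemiVec_last]
    simp [hy]
  · rw [hemiVec_castSucc]
    show _ = - (hemiVec d y i.castSucc)
    rw [hemiVec_castSucc]
    rfl

/-- the same map, normalised -/
private def hemi (d : ℕ) (y : Fin d → ℝ) : Sph d :=
  ⟨(‖hemiVec d y‖)⁻¹ • hemiVec d y, by
    rw [mem_sphere_zero_iff_norm, norm_smul, norm_inv, norm_norm]
    exact inv_mul_cancel₀ (norm_ne_zero_iff.mpr (hemiVec_ne y))⟩

private theorem hemi_continuous : Continuous (hemi d) := by
  have h1 : Continuous fun y : Fin d → ℝ => (‖hemiVec d y‖)⁻¹ :=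
    Continuous.inv₀ hemiVec_continuous.norm (fun y => norm_ne_zero_iff.mpr (hemiVec_ne y))
  have h2 : Continuous fun y : Fin d → ℝ => (‖hemiVec d y‖)⁻¹ • hemiVec d y :=
    h1.smul hemiVec_continuous
  exact Continuous.subtype_mk h2 _

private theorem hemi_odd (y : Fin d → ℝ) (hy : ∑ i, |y i| = 1) : hemi d (-y) = -hemi d y := by
  refine Subtype.ext ?_
  show (‖hemiVec d (-y)‖)⁻¹ • hemiVec d (-y) = -((‖hemiVec d y‖)⁻¹ • hemiVec d y)
  rw [hemiVec_odd y hy, norm_neg, smul_neg]

private theorem gdist_neg_self (x : Sph d) : gdist x (-x) = Real.pi := by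
  unfold gdist
  have h : (x : E d) ≠ 0 := by
    intro h
    have : ‖(x : E d)‖ = 1 := by simp
    rw [h] at this
    simp at this
  show InnerProductGeometry.angle (x : E d) (-(x : E d)) = Real.pi
  exact InnerProductGeometry.angle_self_neg_of_nonzero h

/-- a colour class has no antipodal points in its closure -/
private theorem no_antipodal {α : ℝ} (h0 : 0 < α) (h1 : α ≤ 1) {k : ℕ}
    (c : (borsukGraph d α).Coloring (Fin k)) (j : Fin k) (x : Sph d)
    (hx : x ∈ closure {z | c z = j}) (hx' : -x ∈ closure {z | c z = j}) : False := by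
  obtain ⟨δ, hδ, hball⟩ := gdist_open (u := x) (v := -x) (b := Real.pi - α)
    (by rw [gdist_neg_self]; linarith)
  obtain ⟨a, ha, ha'⟩ := Metric.mem_closure_iff.mp hx δ hδ
  obtain ⟨b, hb, hb'⟩ := Metric.mem_closure_iff.mp hx' δ hδ
  have h2 := hball a (by rw [mem_ball, dist_comm]; exact ha') b (by rw [mem_ball, dist_comm]; exact hb')
  have h3 : a ≠ b := by
    intro h
    rw [h, gdist_self] at h2
    have := Real.pi_gt_three
    linarith
  have h4 : (borsukGraph d α).Adj a b := ⟨h3, h2⟩
  have ha1 : c a = j := ha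
  have hb1 : c b = j := hb
  exact c.valid h4 (ha1.trans hb1.symm)

/-- **Lower bound** (Erdős–Hajnal, Lovász): `d + 1` colours do not suffice. -/
theorem borsuk_not_colorable {α : ℝ} (h0 : 0 < α) (h1 : α ≤ 1) :
    ¬ (borsukGraph d α).Colorable (d + 1) := by
  rintro ⟨c⟩
  let C : Fin (d + 1) → Set (Sph d) := fun j => {z | c z = j}
  let G : (Fin d → ℝ) → (Fin d → ℝ) := fun y i =>
    infDist (hemi d y) (C i.castSucc) - infDist (-hemi d y) (C i.castSucc)
  have hG : Continuous G := by
    refine continuous_pi (fun i => ?_)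
    refine Continuous.sub ?_ ?_
    · exact (continuous_infDist_pt _).comp hemi_continuous
    · exact (continuous_infDist_pt _).comp hemi_continuous.neg
  have hodd : ∀ y : Fin d → ℝ, ∑ i, |y i| = 1 → G (-y) = -G y := by
    intro y hy
    funext i
    show infDist (hemi d (-y)) (C i.castSucc) - infDist (-hemi d (-y)) (C i.castSucc)
      = -(infDist (hemi d y) (C i.castSucc) - infDist (-hemi d y) (C i.castSucc))
    rw [hemi_odd y hy, neg_neg, neg_sub]
  obtain ⟨y, -, hy⟩ := H72V.borsuk_ulam d G hG hodd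
  have hz : ∀ i : Fin d, infDist (hemi d y) (C i.castSucc) = infDist (-hemi d y) (C i.castSucc) := by
    intro i
    have := congrFun hy i
    exact sub_eq_zero.mp this
  have hlast : ∀ x : Sph d, (∀ i : Fin d, infDist x (C i.castSucc) = infDist (-x) (C i.castSucc)) →
      c x = Fin.last d := by
    intro x hx
    rcases Fin.eq_castSucc_or_eq_last (c x) with ⟨i, hi⟩ | hi
    · exfalso
      have hmem : x ∈ C i.castSucc := hi
      have h2 : infDist (-x) (C i.castSucc) = 0 := by
        rw [← hx i]
        exact infDist_zero_of_mem hmem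
      have h3 : -x ∈ closure (C i.castSucc) :=
        (mem_closure_iff_infDist_zero ⟨x, hmem⟩).mpr h2
      exact no_antipodal h0 h1 c i.castSucc x (subset_closure hmem) h3
    · exact hi
  have ha := hlast (hemi d y) hz
  have hb := hlast (-hemi d y) (fun i => by rw [neg_neg]; exact (hz i).symm)
  exact no_antipodal h0 h1 c (Fin.last d) (hemi d y) (subset_closure ha) (subset_closure hb)

/-- adjacent points are nearly antipodal -/
private theorem norm_add_lt {α : ℝ} {u v : Sph d}
    (h : (borsukGraph d α).Adj u v) : ‖(u : E d) + (v : E d)‖ < α := by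
  have hu : ‖(u : E d)‖ = 1 := by simp
  have hv : ‖(v : E d)‖ = 1 := by simp
  have h1 : Real.pi - α < gdist u v := h.2
  have h2 : inner ℝ (u : E d) (v : E d) = Real.cos (gdist u v) := by
    unfold gdist
    rw [InnerProductGeometry.cos_angle, hu, hv]
    simp
  set β := Real.pi - gdist u v with hβ
  have hβ0 : 0 ≤ β := by
    have : gdist u v ≤ Real.pi := InnerProductGeometry.angle_le_pi _ _
    linarith
  have hβ1 : β < α := by linarith
  have h3 : Real.cos (gdist u v) = -Real.cos β := by
    rw [hβ, Real.cos_pi_sub, neg_neg]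
  have h4 : ‖(u : E d) + (v : E d)‖ ^ 2 = 2 - 2 * Real.cos β := by
    rw [@norm_add_sq_real, hu, hv, h2, h3]
    ring
  have h5 := Real.one_sub_sq_div_two_le_cos (x := β)
  have h6 : ‖(u : E d) + (v : E d)‖ ^ 2 ≤ β ^ 2 := by
    rw [h4]; linarith
  have h7 : ‖(u : E d) + (v : E d)‖ ≤ β := by
    exact (pow_le_pow_iff_left₀ (norm_nonneg _) hβ0 two_ne_zero).mp h6
  exact lt_of_le_of_lt h7 hβ1

/-- **Upper bound**: `d + 2` colours suffice for small `α`. -/
theorem borsuk_colorable_add_two {α : ℝ} (h1 : α ≤ 1 / (4 * ((d : ℝ) + 1))) :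
    (borsukGraph d α).Colorable (d + 2) := by
  classical
  set ε : ℝ := 1 / (4 * ((d : ℝ) + 1)) with hε
  have hε0 : 0 < ε := by positivity
  let f : Sph d → Fin (d + 2) := fun u =>
    if h : ∃ i : Fin (d + 1), ε ≤ (u : E d) i then (Classical.choose h).castSucc else Fin.last (d + 1)
  have hf1 : ∀ (u : Sph d) (i : Fin (d + 1)), f u = i.castSucc → ε ≤ (u : E d) i := by
    intro u i hi
    by_cases h : ∃ i : Fin (d + 1), ε ≤ (u : E d) i
    · have h2 : f u = (Classical.choose h).castSucc := dif_pos h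
      rw [h2] at hi
      have h3 : Classical.choose h = i := Fin.castSucc_injective _ hi
      rw [← h3]
      exact Classical.choose_spec h
    · have h2 : f u = Fin.last (d + 1) := dif_neg h
      rw [h2] at hi
      exact absurd hi.symm (Fin.castSucc_lt_last i).ne
  have hf2 : ∀ u : Sph d, f u = Fin.last (d + 1) → ∀ i, (u : E d) i < ε := by
    intro u hu i
    by_contra hcon
    push Not at hcon
    have h : ∃ i : Fin (d + 1), ε ≤ (u : E d) i := ⟨i, hcon⟩
    have h2 : f u = (Classical.choose h).castSucc := dif_pos h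
    rw [h2] at hu
    exact absurd hu (Fin.castSucc_lt_last _).ne
  refine ⟨SimpleGraph.Coloring.mk f ?_⟩
  intro u v huv heq
  have h2 : ‖(u : E d) + (v : E d)‖ < ε := lt_of_lt_of_le (norm_add_lt huv) h1
  have h3 : ∀ i, |(u : E d) i + (v : E d) i| < ε := fun i => by
    have h4 := PiLp.norm_apply_le ((u : E d) + (v : E d)) i
    rw [Real.norm_eq_abs] at h4
    exact lt_of_le_of_lt h4 h2
  rcases Fin.eq_castSucc_or_eq_last (f u) with ⟨i, hi⟩ | hi
  · have h4 := hf1 u i hi
    have h5 := hf1 v i (heq.symm.trans hi)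
    have h6 := (abs_lt.mp (h3 i)).2
    linarith
  · have h4 := hf2 u hi
    have h5 := hf2 v (heq.symm.trans hi)
    have h6 : ∀ i, ((u : E d) i) ^ 2 ≤ (2 * ε) ^ 2 := by
      intro i
      refine sq_le_sq' ?_ ?_
      · have := (abs_lt.mp (h3 i)).1
        have := h5 i
        linarith
      · have := h4 i
        linarith
    have h7 : ‖(u : E d)‖ ^ 2 = ∑ i, ((u : E d) i) ^ 2 := by
      rw [EuclideanSpace.norm_sq_eq]
      refine Finset.sum_congr rfl (fun i _ => ?_)
      rw [Real.norm_eq_abs, sq_abs]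
    have hu : ‖(u : E d)‖ = 1 := by simp
    have h8 : ∑ i, ((u : E d) i) ^ 2 ≤ ((d : ℝ) + 1) * (2 * ε) ^ 2 := by
      refine (Finset.sum_le_sum (fun i _ => h6 i)).trans ?_
      simp
    rw [← h7, hu] at h8
    have h9 : ((d : ℝ) + 1) * (2 * ε) ^ 2 = 1 / (4 * ((d : ℝ) + 1)) := by
      rw [hε]; field_simp; ring
    rw [h9] at h8
    have h10 : (1 : ℝ) / (4 * ((d : ℝ) + 1)) ≤ 1 / 4 := by
      apply one_div_le_one_div_of_le
      · norm_num
      · have : (0:ℝ) ≤ d := Nat.cast_nonneg d
        linarith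
    norm_num at h8 h10
    linarith

/-- For small `α` the Borsuk graph on `S^d` has chromatic number `d + 2`. -/
theorem borsuk_chromaticNumber {α : ℝ} (h0 : 0 < α) (h1 : α ≤ 1 / (4 * ((d : ℝ) + 1))) :
    (borsukGraph d α).chromaticNumber = d + 2 := by
  have hα1 : α ≤ 1 := by
    refine h1.trans ?_
    rw [div_le_one (by positivity)]
    have : (0:ℝ) ≤ d := Nat.cast_nonneg d
    linarith
  have h2 := (SimpleGraph.chromaticNumber_eq_iff_colorable_not_colorable
    (G := borsukGraph d α) (n := d + 1)).mpr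
    ⟨borsuk_colorable_add_two h1, borsuk_not_colorable h0 hα1⟩
  rw [h2]
  push_cast
  ring

end BorsukLib
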